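import Pool.Agent.H.MP_362855_co.B

namespace Pool.Agent.H.MP_751e6a_co

open Finset Pointwise

/-- vertices -/
def vt : Fin 6 → Fin 5 → ℤ :=
  ![![0, 0, 0, 0, 0], ![4, 0, 0, 0, 0], ![0, 4, 0, 0, 0], ![0, 0, 5, 0, 0], ![0, 0, 0, 7, 0],
    ![0, 0, 0, 0, 7]]

/-- the simplex -/
def P : Set (Fin 5 → ℝ) := convexHull ℝ (Set.range (fun i j => (vt i j : ℝ)))

theorem mem_P (t : ℝ) (ht : 0 ≤ t) (x : Fin 5 → ℝ) : x ∈ t • P ↔ (∀ i, 0 ≤ x i) ∧
    35 * x 0 + 35 * x 1 + 28 * x 2 + 20 * x 3 + 20 * x 4 ≤ 140 * t := by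
  unfold P
  rw [Pool.Agent.H.MP_362855_co.mem_dil _ _ ht]
  constructor
  · rintro ⟨w, h1, h2, rfl⟩
    have a0 := h1 0
    have a1 := h1 1
    have a2 := h1 2
    have a3 := h1 3
    have a4 := h1 4
    have a5 := h1 5
    simp only [Fin.sum_univ_six] at h2
    refine ⟨fun i => ?_, ?_⟩
    · fin_cases i <;> simp [Fin.sum_univ_six, vt] <;> positivity
    · simp [Fin.sum_univ_six, vt]
      linarith
  · rintro ⟨h1, h2⟩
    have a0 := h1 0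
    have a1 := h1 1
    have a2 := h1 2
    have a3 := h1 3
    have a4 := h1 4
    refine ⟨![t - x 0 / 4 - x 1 / 4 - x 2 / 5 - x 3 / 7 - x 4 / 7, x 0 / 4, x 1 / 4, x 2 / 5, x 3 / 7,
      x 4 / 7], fun i => ?_, ?_, ?_⟩
    · fin_cases i <;> simp <;> linarith
    · simp [Fin.sum_univ_six]
      ring
    · funext i
      fin_cases i <;> simp [Fin.sum_univ_six, vt]

theorem mem_int (x : Fin 5 → ℝ) : x ∈ interior P ↔ (∀ i, 0 < x i) ∧
    35 * x 0 + 35 * x 1 + 28 * x 2 + 20 * x 3 + 20 * x 4 < 140 := by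
  have hP : ∀ x, x ∈ P ↔ (∀ i, 0 ≤ x i) ∧
      35 * x 0 + 35 * x 1 + 28 * x 2 + 20 * x 3 + 20 * x 4 ≤ 140 := fun x => by
    simpa using mem_P 1 zero_le_one x
  constructor
  · intro hx
    have key : ∀ v : Fin 5 → ℝ, ∃ e : ℝ, 0 < e ∧ x + e • v ∈ P := by
      intro v
      have hc : ContinuousAt (fun e : ℝ => x + e • v) 0 := by fun_prop
      have := hc.eventually (p := fun y => y ∈ P) (by simpa using mem_interior_iff_mem_nhds.1 hx)
      exact this.exists_gt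
    refine ⟨fun i => ?_, ?_⟩
    · obtain ⟨e, he, h⟩ := key (fun _ => -1)
      have := ((hP _).1 h).1 i
      simp at this
      linarith
    · obtain ⟨e, he, h⟩ := key (fun _ => 1)
      have := ((hP _).1 h).2
      simp at this
      linarith
  · intro hx
    refine interior_maximal (t := {x : Fin 5 → ℝ | (∀ i, 0 < x i) ∧
      35 * x 0 + 35 * x 1 + 28 * x 2 + 20 * x 3 + 20 * x 4 < 140})
      (fun y hy => (hP y).2 ⟨fun i => (hy.1 i).le, hy.2.le⟩) ?_ hx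
    have o1 : IsOpen {x : Fin 5 → ℝ | ∀ i, 0 < x i} := by
      rw [Set.ofPred_forall]
      exact isOpen_iInter_of_finite fun i => isOpen_lt (by fun_prop) (by fun_prop)
    have o2 : IsOpen {x : Fin 5 → ℝ | 35 * x 0 + 35 * x 1 + 28 * x 2 + 20 * x 3 + 20 * x 4 < 140} :=
      isOpen_lt (by fun_prop) (by fun_prop)
    exact o1.inter o2

/-- integer weight -/
def W (z : Fin 5 → ℤ) : ℤ := 35 * z 0 + 35 * z 1 + 28 * z 2 + 20 * z 3 + 20 * z 4

theorem lat_P (N : ℕ) (z : Fin 5 → ℤ) :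
    (fun i => (z i : ℝ)) ∈ (N : ℝ) • P ↔ (∀ i, 0 ≤ z i) ∧ W z ≤ 140 * N := by
  rw [mem_P _ (Nat.cast_nonneg N)]
  unfold W
  exact_mod_cast Iff.rfl

theorem lat_int (N : ℕ) (hN : 1 ≤ N) (z : Fin 5 → ℤ) :
    (fun i => (z i : ℝ)) ∈ (N : ℝ) • interior P ↔ (∀ i, 0 < z i) ∧ W z < 140 * N := by
  have h : (0 : ℝ) < N := by exact_mod_cast hN
  rw [Set.mem_smul_set_iff_inv_smul_mem₀ h.ne', mem_int]
  simp only [Pi.smul_apply, smul_eq_mul]
  refine and_congr (forall_congr' fun i => ?_) ?_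
  · rw [mul_pos_iff_of_pos_left (inv_pos.2 h)]
    exact_mod_cast Iff.rfl
  · have : 35 * ((N : ℝ)⁻¹ * z 0) + 35 * ((N : ℝ)⁻¹ * z 1) + 28 * ((N : ℝ)⁻¹ * z 2) +
        20 * ((N : ℝ)⁻¹ * z 3) + 20 * ((N : ℝ)⁻¹ * z 4) = (N : ℝ)⁻¹ * (W z : ℤ) := by
      unfold W; push_cast; ring
    rw [this, inv_mul_lt_iff₀ h, mul_comm]
    exact_mod_cast Iff.rfl

theorem take (y : Fin 5 → ℤ) (hy : ∀ i, 0 ≤ y i) (u c v : ℤ) (hu : 0 ≤ u) (hc : 0 ≤ c) (hv : 0 ≤ v)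
    (h1 : u ≤ y 0 + y 1) (h2 : c ≤ y 2) (h3 : v ≤ y 3 + y 4) :
    ∃ p : Fin 5 → ℤ, (∀ i, 0 ≤ p i) ∧ (∀ i, 0 ≤ (y - p) i) ∧ W p = 35 * u + 28 * c + 20 * v := by
  have a0 := hy 0
  have a1 := hy 1
  have a3 := hy 3
  have a4 := hy 4
  refine ⟨![min u (y 0), u - min u (y 0), c, min v (y 3), v - min v (y 3)], fun i => ?_, fun i => ?_, ?_⟩
  · fin_cases i <;> simp <;> omega
  · fin_cases i <;> simp <;> omega
  · simp [W]
    ring

theorem W_sub (y p : Fin 5 → ℤ) : W (y - p) = W y - W p := by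
  simp only [W, Pi.sub_apply]; ring

theorem W_add (y p : Fin 5 → ℤ) : W (y + p) = W y + W p := by
  simp only [W, Pi.add_apply]; ring

theorem full (y : Fin 5 → ℤ) (hy : ∀ i, 0 ≤ y i) :
    (∃ p : Fin 5 → ℤ, (∀ i, 0 ≤ p i) ∧ (∀ i, 0 ≤ (y - p) i) ∧ W p = 140) ∨
      (y 0 + y 1 < 4 ∧ y 2 < 5 ∧ y 3 + y 4 < 7) := by
  have a0 := hy 0
  have a1 := hy 1
  have a2 := hy 2
  have a3 := hy 3
  have a4 := hy 4
  by_cases h1 : 4 ≤ y 0 + y 1
  · exact Or.inl (take y hy 4 0 0 (by omega) (by omega) (by omega) h1 a2 (by omega))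
  by_cases h2 : 5 ≤ y 2
  · exact Or.inl (take y hy 0 5 0 (by omega) (by omega) (by omega) (by omega) h2 (by omega))
  by_cases h3 : 7 ≤ y 3 + y 4
  · exact Or.inl (take y hy 0 0 7 (by omega) (by omega) (by omega) (by omega) a2 h3)
  right
  omega

theorem box : ∀ u < 4, ∀ c < 5, ∀ v < 7, ∃ u' ≤ u, ∃ c' ≤ c, ∃ v' ≤ v,
    35 * u' + 28 * c' + 20 * v' ≤ 140 ∧
    (35 * u + 28 * c + 20 * v ≤ 280 → 35 * u + 28 * c + 20 * v ≤ 140 + (35 * u' + 28 * c' + 20 * v')) ∧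
    35 * u + 28 * c + 20 * v ≤ 280 + (35 * u' + 28 * c' + 20 * v') := by decide +kernel

theorem split (N : ℕ) (hN : 1 ≤ N) (y : Fin 5 → ℤ) (hy : ∀ i, 0 ≤ y i) (h : W y ≤ 140 * (N + 1)) :
    ∃ p : Fin 5 → ℤ, (∀ i, 0 ≤ p i) ∧ (∀ i, 0 ≤ (y - p) i) ∧ W p ≤ 140 ∧ W (y - p) ≤ 140 * N := by
  rcases full y hy with ⟨p, h1, h2, h3⟩ | ⟨h1, h2, h3⟩
  · exact ⟨p, h1, h2, h3.le, by rw [W_sub]; omega⟩
  · have a0 := hy 0
    have a1 := hy 1
    have a2 := hy 2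
    have a3 := hy 3
    have a4 := hy 4
    obtain ⟨u, hu, c, hc, v, hv, b1, b2, b3⟩ := box (y 0 + y 1).toNat (by omega) (y 2).toNat (by omega)
      (y 3 + y 4).toNat (by omega)
    obtain ⟨p, p1, p2, p3⟩ := take y hy u c v (by omega) (by omega) (by omega) (by omega) (by omega)
      (by omega)
    refine ⟨p, p1, p2, by omega, ?_⟩
    rw [W_sub, p3]
    unfold W at h ⊢
    rcases (show N = 1 ∨ 2 ≤ N by omega) with h4 | h4 <;> omega

theorem normal (N : ℕ) (y : Fin 5 → ℤ) (hy : ∀ i, 0 ≤ y i) (h : W y ≤ 140 * (N + 1)) :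
    ∃ f : Fin (N + 1) → Fin 5 → ℤ, (∀ k, (∀ i, 0 ≤ f k i) ∧ W (f k) ≤ 140) ∧ y = ∑ k, f k := by
  induction N generalizing y with
  | zero => exact ⟨fun _ => y, fun _ => ⟨hy, by simpa using h⟩, by simp⟩
  | succ N ih =>
    obtain ⟨p, p1, p2, p3, p4⟩ := split (N + 1) (by omega) y hy h
    obtain ⟨f, f1, f2⟩ := ih (y - p) p2 (by exact_mod_cast p4)
    refine ⟨Fin.cons p f, fun k => Fin.cases ⟨p1, p3⟩ f1 k, ?_⟩
    rw [Fin.sum_univ_succ]
    simp [← f2]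

theorem three (k : ℕ) (y : Fin 5 → ℤ) (hy : ∀ i, 0 ≤ y i) (h : W y ≤ 281 + 140 * k) :
    ∃ p : Fin 5 → ℤ, (∀ i, 0 ≤ p i) ∧ (∀ i, 0 ≤ (y - p) i) ∧ W p ≤ 140 * k ∧ W (y - p) ≤ 281 := by
  induction k generalizing y with
  | zero => exact ⟨0, by simp, by simpa using hy, by simp [W], by simpa using h⟩
  | succ k ih =>
    rcases full y hy with ⟨p, h1, h2, h3⟩ | ⟨h1, h2, h3⟩
    · obtain ⟨q, q1, q2, q3, q4⟩ := ih (y - p) h2 (by rw [W_sub]; push_cast at h; omega)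
      refine ⟨p + q, fun i => add_nonneg (h1 i) (q1 i), ?_, ?_, ?_⟩
      · rwa [← sub_sub]
      · rw [W_add]; push_cast; omega
      · rwa [← sub_sub]
    · by_cases h4 : W y ≤ 281
      · exact ⟨0, by simp, by simpa using hy, by simp [W]; positivity, by simpa using h4⟩
      · have a0 := hy 0
        have a1 := hy 1
        have a2 := hy 2
        unfold W at h4
        obtain ⟨p, p1, p2, p3⟩ := take y hy 0 0 3 (by omega) (by omega) (by omega) (by omega) (by omega)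
          (by omega)
        refine ⟨p, p1, p2, by push_cast; omega, ?_⟩
        rw [W_sub, p3]
        unfold W
        omega

end Pool.Agent.H.MP_751e6a_co
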